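import Pool.Agent.Helper255.CF.Final

/-!
Restrictions of cross characteristic representations from `G(q^m)` to `G(q)`: for every simple
Chevalley group `G(K)` over a finite field `K` there is `m ≥ 1` such that over the extension `L` of
`K` of degree `m` every irreducible representation of `G(L)` of dimension `> 1` in cross
characteristic restricts to `G(K)` with all irreducible representations of `G(K)` among its
composition factors.
-/

set_option autoImplicit false

namespace Pool.Agent.Results.MP_467141_al.Full

open Pool.Agent.Helper255.CF

/-- for the trivial diagram automorphism the group is generated by all root elements `x_β(t)` -/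
theorem folded_one {l : ℕ} (D : SLCartan l) (R : Type*) [CommRing R] :
    folded D 1 R = Subgroup.closure {g : Matrix.GeneralLinearGroup (Idx D) R |
      ∃ (β : Root D) (t : R), (g : Matrix (Idx D) (Idx D) R) = xM D β t} := by
  unfold folded
  congr 1
  ext g
  constructor
  · rintro ⟨β, t, L, hL, hm, hg⟩
    have hp : L.Perm [β] := (List.perm_ext_iff_of_nodup hL (List.nodup_singleton β)).2
      (fun γ => by
        rw [hm, List.mem_singleton]
        constructor
        · rintro ⟨k, hk⟩
          rw [one_pow] at hk
          exact Subtype.ext hk
        · rintro rfl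
          exact ⟨0, rfl⟩)
    rw [List.perm_singleton.1 hp] at hg
    refine ⟨β, t, ?_⟩
    rw [hg, List.map_cons, List.map_nil, List.prod_cons, List.prod_nil, mul_one]
  · rintro ⟨β, t, hg⟩
    refine ⟨β, t, [β], List.nodup_singleton β, fun γ => ?_, ?_⟩
    · rw [List.mem_singleton]
      constructor
      · rintro rfl
        exact ⟨0, rfl⟩
      · rintro ⟨k, hk⟩
        rw [one_pow] at hk
        exact Subtype.ext hk
    · rw [hg, List.map_cons, List.map_nil, List.prod_cons, List.prod_nil, mul_one]

/-- there is exactly one standard embedding of `G(K)` in `G(L)` -/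
theorem existsUnique_std (X : LieType) (K L : Type) [Field K] [Field L] [Algebra K L] :
    ∃! j : Chev X K →* Chev X L, IsStandard X j :=
  existsUnique_standard X K L

/-- For every untwisted Lie type `X` and every finite field `K` such that the Chevalley group
`G(K)` of type `X` is simple there is `m ≥ 1` such that for the extension `L` of `K` of degree `m`
(and the standard embedding `j` of `G(K)` in `G(L)`), every prime `ℓ` different from the
characteristic of `K`, every field `F` of characteristic `ℓ`, every irreducible representation `ρ`
of `G(L)` over `F` of dimension `> 1` and every irreducible representation `τ` of `G(K)` over `F`,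
the representation `τ` is a composition factor of the restriction of `ρ` to `G(K)`. -/
theorem result (X : LieType) (K : Type) [Field K] [Finite K] [IsSimpleGroup (Chev X K)] :
    ∃ m : ℕ, 1 ≤ m ∧ ∀ (L : Type) [Field L] [Algebra K L], Module.finrank K L = m →
      ∀ j : Chev X K →* Chev X L, IsStandard X j → ∀ (ℓ : ℕ), ℓ.Prime → (ℓ : K) ≠ 0 →
      ∀ (F V S : Type*) [Field F] [CharP F ℓ] [AddCommGroup V] [Module F V]
        [FiniteDimensional F V] [AddCommGroup S] [Module F S]
        (ρ : Representation F (Chev X L) V) (τ : Representation F (Chev X K) S),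
        ρ.IsIrreducible → 1 < Module.finrank F V → τ.IsIrreducible →
          IsFactor τ (ρ.comp j) := by
  obtain ⟨m, hm, h⟩ := concl_X X K ‹_›
  refine ⟨m, hm, ?_⟩
  intro L _ _ hL j hj ℓ hℓ hℓK F V S _ _ _ _ _ _ _ ρ τ hρ hdim hτ
  apply isFactor_of
  refine h L hL j hj F V S ?_ ρ hρ hdim τ hτ
  intro p hp hpK hpF
  have hdvd : ℓ ∣ p := (CharP.cast_eq_zero_iff F ℓ p).1 hpF
  have heq : ℓ = p := (Nat.prime_dvd_prime_iff_eq hℓ hp).1 hdvd
  subst heq
  exact hℓK (CharP.cast_eq_zero K ℓ)

end Pool.Agent.Results.MP_467141_al.Full
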