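import Pool.Agent.Helper255.CR.Wrap

/-!
Chevalley groups of simply laced type (A, D, E) over finite fields: for every finite field `K`
there is `m ≥ 1` such that over the extension `L` of `K` of degree `m` every irreducible
representation of dimension `> 1` of `G(L)` in cross characteristic restricts to `G(K)` with all
irreducible representations of `G(K)` among its composition factors.
-/

set_option autoImplicit false

namespace Pool.Agent.Results.MP_467141_al.SimplyLaced

open Pool.Agent.Helper255.CR

/-- the definition is inhabited: type `A_1` -/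
def typeA1 : SLCartan 1 where
  M := fun _ _ => 1
  diag := fun _ => rfl
  off := fun i j h => absurd (Subsingleton.elim i j) h
  pos := by
    intro x hx
    have h0 : x 0 ≠ 0 := by
      intro h
      apply hx
      funext i
      rw [Subsingleton.elim i 0, h]
      rfl
    simp only [dotProduct, Matrix.mulVec, Finset.univ_unique, Fin.default_eq_zero,
      Finset.sum_singleton, one_mul]
    exact mul_self_pos.2 h0
  conn := by
    intro s hs _
    obtain ⟨i, hi⟩ := hs
    ext j
    exact ⟨fun _ => Finset.mem_univ _, fun _ => by rw [Subsingleton.elim j i]; exact hi⟩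

/-- there is exactly one standard embedding -/
theorem existsUnique_standard {l : ℕ} (D : SLCartan l) (K L : Type) [Field K] [Field L]
    [Algebra K L] : ∃! j : Chev D K →* Chev D L, IsStandard D j := by
  obtain ⟨j, hj, -⟩ := isStandard_Gmap D (K := K) (L := L)
  refine ⟨j, hj, ?_⟩
  intro j' hj'
  ext g
  apply Subtype.ext
  apply Units.ext
  ext a b
  exact (hj' g a b).trans (hj g a b).symm

/-- For every simply laced type (given by a Cartan datum `D`) and every finite field `K` there is
`m ≥ 1` such that for the extension `L` of degree `m`, every prime `ℓ` different from the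
characteristic, every field `F` of characteristic `ℓ`, every irreducible representation `ρ` of
`G(L)` over `F` of dimension `> 1` and every irreducible representation `τ` of `G(K)` over `F`, the
representation `τ` is a composition factor of the restriction of `ρ` to `G(K)`. -/
theorem result {l : ℕ} (hl : 0 < l) (D : SLCartan l) (K : Type) [Field K] [Finite K] :
    ∃ m : ℕ, 1 ≤ m ∧ ∀ (L : Type) [Field L] [Algebra K L], Module.finrank K L = m →
      ∀ j : Chev D K →* Chev D L, IsStandard D j → ∀ (ℓ : ℕ), ℓ.Prime → (ℓ : K) ≠ 0 →
      ∀ (F V S : Type*) [Field F] [CharP F ℓ] [AddCommGroup V] [Module F V]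
        [FiniteDimensional F V] [AddCommGroup S] [Module F S]
        (ρ : Representation F (Chev D L) V) (τ : Representation F (Chev D K) S),
        ρ.IsIrreducible → 1 < Module.finrank F V → τ.IsIrreducible →
          IsFactor τ (ρ.comp j) := by
  obtain ⟨m, hm, h⟩ := main D hl K
  refine ⟨m, hm, ?_⟩
  intro L _ _ hL j hj ℓ hℓ hℓK F V S _ _ _ _ _ _ _ ρ τ hρ hdim hτ
  have hjj : j = Gmap D (algebraMap K L) := by
    obtain ⟨j', hj', hu⟩ := existsUnique_standard D K L
    rw [hu j hj]
    exact (hu _ (fun _ _ _ => rfl)).symm
  subst hjj
  apply isFactor_of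
  refine h L hL F V S ?_ ρ hρ hdim τ hτ
  intro p hp hpK hpF
  have hdvd : ℓ ∣ p := (CharP.cast_eq_zero_iff F ℓ p).1 hpF
  have heq : ℓ = p := (Nat.prime_dvd_prime_iff_eq hℓ hp).1 hdvd
  subst heq
  exact hℓK (CharP.cast_eq_zero K ℓ)

end Pool.Agent.Results.MP_467141_al.SimplyLaced
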